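import Pool.Agent.Q270.EN.Stm7
import Pool.Agent.Q177.EL.Base

/-!
# Project EL (helper270), job EL-INT: sums over short intervals
-/

set_option autoImplicit false

namespace Pool.Agent.Q285.EN

open Finset Filter Topology
open Pool.Agent.Q270.EN Pool.Agent.Q259.RM Pool.Agent.Q177.EL

theorem t_INT : S_INT := by
  intro A T hT
  obtain ⟨C1, hC1, hMA⟩ := MA T.card 3 (by norm_num)
  have hdisc : disc (aT T) (bT T) ≠ 0 :=
    disc_ne (fun i => by have := (adm_mem hT i).1; omega) (fun i j hij => adm_det hT hij)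
  have hAF : 0 ≤ AF (disc (aT T) (bT T)) := by
    unfold AF
    positivity
  refine ⟨C1 * 2 * (AF (disc (aT T) (bT T)) ^ T.card + 1), by positivity, ?_⟩
  intro θ hθ1 hθ2
  obtain ⟨c, hc⟩ : ∃ c, c = θ - 1 := ⟨_, rfl⟩
  have hc0 : 0 < c := by linarith
  have hc1 : c ≤ 1 := by linarith
  have hx : Tendsto (fun N : ℕ => ⌈c * (N : ℝ)⌉₊) atTop atTop :=
    tendsto_nat_ceil_atTop.comp (tendsto_natCast_atTop_atTop.const_mul_atTop hc0)
  have hbig : ∀ᶠ N : ℕ in atTop, ((2 * A : ℕ) + 2 : ℝ) / c ^ 2 + 1 / c + 1 ≤ (N : ℝ) :=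
    tendsto_natCast_atTop_atTop.eventually_ge_atTop _
  filter_upwards [hx.eventually hMA, hbig, eventually_ge_atTop 1] with N h1 h2 hN1 M hM1 hM2
  obtain ⟨x, hxd⟩ : ∃ x, x = ⌈c * (N : ℝ)⌉₊ := ⟨_, rfl⟩
  rw [← hxd] at h1
  have hNr : (1 : ℝ) ≤ N := by exact_mod_cast hN1
  have hN0 : (0 : ℝ) < N := by linarith
  have hxl : c * N ≤ x := by
    rw [hxd]
    exact Nat.le_ceil _
  have hxu : (x : ℝ) < c * N + 1 := by
    rw [hxd]
    exact Nat.ceil_lt_add_one (by positivity)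
  have hcN : 1 ≤ c * N := by
    have e1 : 1 / c ≤ N := by
      have : 0 ≤ ((2 * A : ℕ) + 2 : ℝ) / c ^ 2 := by positivity
      linarith
    rw [div_le_iff₀ hc0] at e1
    linarith
  have hx1 : 1 ≤ x := by
    have : (1 : ℝ) ≤ x := hcN.trans hxl
    exact_mod_cast this
  have hx1r : (1 : ℝ) ≤ x := by exact_mod_cast hx1
  -- size of the coefficients
  have hA3 : (A : ℝ) * N + A ≤ (x : ℝ) ^ 3 := by
    have e1 : ((2 * A : ℕ) + 2 : ℝ) / c ^ 2 ≤ N := by
      have : 0 ≤ 1 / c := by positivity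
      linarith
    rw [div_le_iff₀ (by positivity)] at e1
    push_cast at e1
    have e2 : (c * N) ^ 2 ≤ (x : ℝ) ^ 2 := pow_le_pow_left₀ (by positivity) hxl 2
    have e3 : (x : ℝ) ^ 2 ≤ (x : ℝ) ^ 3 := pow_le_pow_right₀ hx1r (by norm_num)
    have e4 : (A : ℝ) * N + A ≤ 2 * A * N := by
      have : (A : ℝ) * 1 ≤ A * N := mul_le_mul_of_nonneg_left hNr (Nat.cast_nonneg _)
      linarith
    have e5 : (2 * (A : ℝ)) * N ≤ (N * c ^ 2) * N := by
      apply mul_le_mul_of_nonneg_right _ hN0.le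
      linarith
    have e6 : ((N : ℝ) * c ^ 2) * N = (c * N) ^ 2 := by ring
    linarith
  have hab : ∀ i : Fin T.card, 0 < aT T i * (1 : ℕ) ∧ aT T i * (1 : ℕ) ≤ (x : ℤ) ^ 3 ∧
      0 ≤ aT T i * (N : ℕ) + bT T i ∧ aT T i * (N : ℕ) + bT T i ≤ (x : ℤ) ^ 3 := by
    intro i
    obtain ⟨m1, m2, m3, m4⟩ := adm_mem hT i
    have hNz : (1 : ℤ) ≤ N := by exact_mod_cast hN1
    have hA3' : (A : ℤ) * N + A ≤ (x : ℤ) ^ 3 := by exact_mod_cast hA3
    have e1 : aT T i * (N : ℤ) ≤ A * N := mul_le_mul_of_nonneg_right m2 (by omega)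
    have e2 : 0 ≤ aT T i * (N : ℤ) := mul_nonneg (by omega) (by omega)
    have e3 : (A : ℤ) * 1 ≤ A * N := mul_le_mul_of_nonneg_left hNz (Int.natCast_nonneg _)
    refine ⟨?_, ?_, ?_, ?_⟩
    · push_cast
      omega
    · push_cast
      linarith
    · linarith
    · linarith
  obtain ⟨s, hs⟩ := disc_prog (aT T) (bT T) 1 N
  rw [one_pow, one_mul] at hs
  have h3 := h1 (fun j => aT T j * (1 : ℕ)) (fun j => aT T j * (N : ℕ) + bT T j) hab (by
    have : disc (fun j => aT T j * ((1 : ℕ) : ℤ)) (fun j => aT T j * ((N : ℕ) : ℤ) + bT T j) =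
        disc (aT T) (bT T) := by
      rw [← hs]
      simp
    rw [this]
    exact hdisc)
  have hs' : disc (fun j => aT T j * ((1 : ℕ) : ℤ)) (fun j => aT T j * ((N : ℕ) : ℤ) + bT T j) =
        disc (aT T) (bT T) := by
    rw [← hs]
    simp
  rw [hs'] at h3
  -- comparison of the sums
  have h4 : ∑ n ∈ Ioc N M, vT T n ≤
      ∑ n ∈ Icc 1 x, vL (fun j => aT T j * ((1 : ℕ) : ℤ)) (fun j => aT T j * ((N : ℕ) : ℤ) + bT T j) n := by
    have e1 : ∀ i, vL (fun j => aT T j * ((1 : ℕ) : ℤ)) (fun j => aT T j * ((N : ℕ) : ℤ) + bT T j) i =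
        vT T (i + N) := by
      intro i
      rw [← vT_prog T 1 N i, one_mul]
    simp only [e1]
    have e2 : ∑ n ∈ Ioc N M, vT T n ≤ ∑ n ∈ (Icc 1 x).image (fun i => i + N), vT T n := by
      refine Finset.sum_le_sum_of_subset_of_nonneg ?_ (fun n _ _ => Pool.Agent.Q177.EL.vT_nonneg T n)
      intro n hn
      rw [Finset.mem_Ioc] at hn
      rw [Finset.mem_image]
      refine ⟨n - N, ?_, by omega⟩
      rw [Finset.mem_Icc]
      refine ⟨by omega, ?_⟩
      have e3 : ((n - N : ℕ) : ℝ) ≤ x := by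
        rw [Nat.cast_sub hn.1.le]
        have e4 : (n : ℝ) ≤ M := by exact_mod_cast hn.2
        have e5 : (M : ℝ) ≤ (c + 1) * N := by
          rw [hc]
          linarith
        linarith
      exact_mod_cast e3
    rw [Finset.sum_image (fun a _ b _ hab => by simpa using hab)] at e2
    exact e2
  refine h4.trans (h3.trans ?_)
  have h5 : (x : ℝ) ≤ 2 * (c * N) := by linarith
  have h6 : 0 ≤ AF (disc (aT T) (bT T)) ^ T.card := pow_nonneg hAF _
  rw [← hc]
  calc C1 * x * AF (disc (aT T) (bT T)) ^ T.card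
      ≤ C1 * (2 * (c * N)) * (AF (disc (aT T) (bT T)) ^ T.card + 1) := by
        apply mul_le_mul _ (by linarith) h6 (by positivity)
        exact mul_le_mul_of_nonneg_left h5 hC1.le
    _ = C1 * 2 * (AF (disc (aT T) (bT T)) ^ T.card + 1) * c * N := by ring

end Pool.Agent.Q285.EN
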