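import Pool.Agent.Q270.EN.Stm7
import Pool.Agent.Q211.EN.Asa

/-!
# Project EL (helper270), job EL-ASL: almost sure version with von Mangoldt factors

Adaptation of the files of helper182 (job AS) and helper211 (job ASA).
-/

set_option autoImplicit false

namespace Pool.Agent.Q285.EN

open Finset Filter Topology MeasureTheory Pool.Agent.Q270.EN Pool.Agent.Q182.EN Pool.Agent.Q211.EN

/-- the sum along a geometric sequence -/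
theorem geomL {Ω : Type} [MeasurableSpace Ω] (μ : Measure Ω) [IsProbabilityMeasure μ]
    (e : ℕ → Ω → ℝ) (he : Sgn e) (P : Set ℕ) (m : ℕ → Ω → ℝ) (hgen : GenP μ e P m)
    (hC : S_COREL)
    (hP : Tendsto (fun N : ℕ => ∑ p ∈ (pr P N).filter (⌈(Real.log N) ^ 2⌉₊ < ·), 1 / (p : ℝ))
      atTop atTop)
    (F : ℕ → Ω → ℝ) (hF : ∀ᵐ ω ∂μ, Summable fun p => F p ω)
    (hFm : ∀ p, p.Prime → p ∈ P → ∀ ω, F p ω = m p ω ^ 2 / p)
    (A : ℕ) (T U : Finset (ℕ × ℕ)) (w : ℕ → ℂ) (hTU : Adm A A (T ∪ U)) (hdis : Disjoint T U)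
    (hU : U.Nonempty) (hw : ∀ n, ‖w n‖ ≤ 1)
    (θ ε : ℝ) (hθ : 1 < θ) (hε : 0 < ε) :
    ∀ᵐ ω ∂μ, ∀ᶠ i : ℕ in atTop,
      ‖cl P e T U w ⌊θ ^ i⌋₊ ω‖ ≤ 3 * ε * (⌊θ ^ i⌋₊ : ℝ) := by
  classical
  have hA : 1 ≤ A := by
    obtain ⟨q, hq⟩ := hTU.1
    exact (hTU.2.1 q hq).1.trans (hTU.2.1 q hq).2.1
  obtain ⟨C, K, y, hC0, hK, hy, hy1, hKb, hcore⟩ :=
    hC P (fun N => ⌈(Real.log N) ^ 2⌉₊) hP A T U hA hTU hdis hU ε hε
  -- the exceptional variables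
  have hZ : ∀ N : ℕ, ∃ Z : Ω → ℝ, Measurable Z ∧ (∀ ω, 0 ≤ Z ω) ∧ (∃ B : ℝ, ∀ ω, Z ω ≤ B) ∧
      ((∃ Z : Ω → ℝ, Measurable Z ∧ (∀ ω, 0 ≤ Z ω) ∧ (∃ B : ℝ, ∀ ω, Z ω ≤ B) ∧
        ∫ ω, Z ω ^ 2 ∂μ ≤ (C * N) ^ 2 / y N ∧
        ∀ ω, ‖cl P e T U w N ω‖ ≤ ε * N + Z ω + C * N *
          ∑ p ∈ (pr P (2 * A * N)).filter (y N < ·), 1 / (p : ℝ) * |m p ω|) →
        ∫ ω, Z ω ^ 2 ∂μ ≤ (C * N) ^ 2 / y N ∧
        ∀ ω, ‖cl P e T U w N ω‖ ≤ ε * N + Z ω + C * N *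
          ∑ p ∈ (pr P (2 * A * N)).filter (y N < ·), 1 / (p : ℝ) * |m p ω|) := by
    intro N
    by_cases h : ∃ Z : Ω → ℝ, Measurable Z ∧ (∀ ω, 0 ≤ Z ω) ∧ (∃ B : ℝ, ∀ ω, Z ω ≤ B) ∧
        ∫ ω, Z ω ^ 2 ∂μ ≤ (C * N) ^ 2 / y N ∧
        ∀ ω, ‖cl P e T U w N ω‖ ≤ ε * N + Z ω + C * N *
          ∑ p ∈ (pr P (2 * A * N)).filter (y N < ·), 1 / (p : ℝ) * |m p ω|
    · obtain ⟨Z, h1, h2, h3, h4, h5⟩ := h
      exact ⟨Z, h1, h2, h3, fun _ => ⟨h4, h5⟩⟩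
    · exact ⟨fun _ => 0, measurable_const, fun _ => le_rfl, ⟨0, fun _ => le_rfl⟩,
        fun h1 => absurd h1 h⟩
  choose Z hZm hZ0 hZb hZc using hZ
  choose Bd hBd using hZb
  have hfl := floor_atTop θ hθ
  have hcore' : ∀ᶠ N : ℕ in atTop, ∫ ω, Z N ω ^ 2 ∂μ ≤ (C * N) ^ 2 / y N ∧
        ∀ ω, ‖cl P e T U w N ω‖ ≤ ε * N + Z N ω + C * N *
          ∑ p ∈ (pr P (2 * A * N)).filter (y N < ·), 1 / (p : ℝ) * |m p ω| := by
    filter_upwards [hcore] with N hN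
    exact hZc N (hN Ω μ e m he hgen w hw)
  -- summability of second moments
  set f : ℕ → Ω → ℝ := fun i ω => (Z ⌊θ ^ i⌋₊ ω / (⌊θ ^ i⌋₊ : ℝ)) ^ 2 with hf
  have hfm : ∀ i, Measurable (f i) := fun i => ((hZm _).div_const _).pow_const 2
  have hf0 : ∀ i ω, 0 ≤ f i ω := fun i ω => sq_nonneg _
  have hfi : ∀ i, Integrable (f i) μ := by
    intro i
    have hN : (0 : ℝ) < (⌊θ ^ i⌋₊ : ℝ) := by exact_mod_cast floor_pos θ hθ i
    refine Integrable.of_bound (hfm i).aestronglyMeasurable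
      ((Bd ⌊θ ^ i⌋₊ / (⌊θ ^ i⌋₊ : ℝ)) ^ 2) (Eventually.of_forall fun ω => ?_)
    rw [Real.norm_of_nonneg (hf0 i ω)]
    have h1 : 0 ≤ Z ⌊θ ^ i⌋₊ ω / (⌊θ ^ i⌋₊ : ℝ) := div_nonneg (hZ0 _ ω) hN.le
    exact pow_le_pow_left₀ h1 (div_le_div_of_nonneg_right (hBd _ ω) hN.le) 2
  have hfs : Summable fun i => ∫ ω, f i ω ∂μ := by
    have hl : 0 < Real.log θ := Real.log_pos hθ
    have hg : Summable fun i : ℕ =>
        C ^ 2 / (Real.log θ / 2) ^ 2 * (1 / (i : ℝ) ^ 2) :=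
      (Real.summable_one_div_nat_pow.mpr (by norm_num)).mul_left _
    refine Summable.of_norm_bounded_eventually_nat hg ?_
    filter_upwards [hfl.eventually hy1, hfl.eventually hcore', log_floor θ hθ, eventually_ge_atTop 1]
      with i h1 h2 h3 h4
    have hN : (0 : ℝ) < (⌊θ ^ i⌋₊ : ℝ) := by exact_mod_cast floor_pos θ hθ i
    rw [Real.norm_of_nonneg (integral_nonneg (hf0 i))]
    have h5 := h2.1
    have h6 : ∫ ω, f i ω ∂μ = (∫ ω, Z ⌊θ ^ i⌋₊ ω ^ 2 ∂μ) / (⌊θ ^ i⌋₊ : ℝ) ^ 2 := by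
      rw [← integral_div]
      refine integral_congr_ae (Eventually.of_forall fun ω => ?_)
      simp only [hf, div_pow]
    rw [h6]
    have hi : (0 : ℝ) < (i : ℝ) := by exact_mod_cast h4
    have h7 : ((i : ℝ) * (Real.log θ / 2)) ^ 2 ≤ (y ⌊θ ^ i⌋₊ : ℝ) := by
      have h8 : ((i : ℝ) * (Real.log θ / 2)) ^ 2 ≤ (Real.log (⌊θ ^ i⌋₊ : ℝ)) ^ 2 :=
        pow_le_pow_left₀ (by positivity) h3 2
      have h9 : (Real.log (⌊θ ^ i⌋₊ : ℝ)) ^ 2 ≤ (⌈(Real.log (⌊θ ^ i⌋₊ : ℝ)) ^ 2⌉₊ : ℝ) :=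
        Nat.le_ceil _
      have h10 : (⌈(Real.log (⌊θ ^ i⌋₊ : ℝ)) ^ 2⌉₊ : ℝ) ≤ (y ⌊θ ^ i⌋₊ : ℝ) := by
        exact_mod_cast h1.1
      linarith
    have h8 : (0 : ℝ) < ((i : ℝ) * (Real.log θ / 2)) ^ 2 := by positivity
    rw [div_le_iff₀ (by positivity)]
    refine h5.trans ?_
    have h9 : (C * (⌊θ ^ i⌋₊ : ℝ)) ^ 2 / (y ⌊θ ^ i⌋₊ : ℝ) ≤
        (C * (⌊θ ^ i⌋₊ : ℝ)) ^ 2 / ((i : ℝ) * (Real.log θ / 2)) ^ 2 :=
      div_le_div_of_nonneg_left (by positivity) h8 h7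
    refine h9.trans (le_of_eq ?_)
    field_simp
  have hae := ae_summable μ f hfm hf0 hfi hfs
  filter_upwards [hae, hF] with ω h1 h2
  have hz : ∀ᶠ i : ℕ in atTop, Z ⌊θ ^ i⌋₊ ω ≤ ε * (⌊θ ^ i⌋₊ : ℝ) := by
    have h3 := h1.tendsto_atTop_zero
    have h4 : ∀ᶠ i : ℕ in atTop, f i ω < ε ^ 2 := h3.eventually_lt_const (by positivity)
    filter_upwards [h4] with i hi
    have hN : (0 : ℝ) < (⌊θ ^ i⌋₊ : ℝ) := by exact_mod_cast floor_pos θ hθ i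
    have h5 : Z ⌊θ ^ i⌋₊ ω / (⌊θ ^ i⌋₊ : ℝ) < ε := lt_of_pow_lt_pow_left₀ 2 hε.le hi
    exact ((div_lt_iff₀ hN).mp h5).le
  have hwd := window' P (fun p => m p ω) A y hy K hK hKb (fun p => F p ω) h2
    (fun p hp hpP => hFm p hp hpP ω) (ε / (C + 1)) (by positivity)
  filter_upwards [hz, hfl.eventually hwd, hfl.eventually hcore'] with i g1 g2 g3
  have g6 := g3.2 ω
  have hN : (0 : ℝ) ≤ (⌊θ ^ i⌋₊ : ℝ) := Nat.cast_nonneg _
  have g8 : C * (⌊θ ^ i⌋₊ : ℝ) *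
      ∑ p ∈ (pr P (2 * A * ⌊θ ^ i⌋₊)).filter (y ⌊θ ^ i⌋₊ < ·), 1 / (p : ℝ) * |m p ω| ≤
      C * (⌊θ ^ i⌋₊ : ℝ) * (ε / (C + 1)) := mul_le_mul_of_nonneg_left g2 (by positivity)
  have g9 : C * (⌊θ ^ i⌋₊ : ℝ) * (ε / (C + 1)) ≤ ε * (⌊θ ^ i⌋₊ : ℝ) := by
    have h3 : C * (ε / (C + 1)) ≤ ε := by
      rw [mul_div_assoc', div_le_iff₀ (by positivity)]
      nlinarith
    calc C * (⌊θ ^ i⌋₊ : ℝ) * (ε / (C + 1)) = C * (ε / (C + 1)) * (⌊θ ^ i⌋₊ : ℝ) := by ring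
      _ ≤ ε * (⌊θ ^ i⌋₊ : ℝ) := mul_le_mul_of_nonneg_right h3 hN
  linarith

/-- from geometric sequences to all `N` -/
theorem interpL (a : ℕ → ℂ) (v : ℕ → ℝ) (hv : ∀ n, ‖a n‖ ≤ v n) (B C : ℝ) (hB : 0 ≤ B) (hC : 0 < C)
    (hI : ∀ θ : ℝ, 1 < θ → θ ≤ 2 → ∀ᶠ N : ℕ in atTop, ∀ M : ℕ, N ≤ M → (M : ℝ) ≤ θ * N →
      ∑ n ∈ Ioc N M, v n ≤ C * (θ - 1) * N)
    (h : ∀ r s : ℕ, ∀ᶠ i : ℕ in atTop, ‖∑ n ∈ Icc 1 ⌊(1 + 1 / ((s : ℝ) + 1)) ^ i⌋₊, a n‖ ≤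
      B * (1 / ((r : ℝ) + 1)) * (⌊(1 + 1 / ((s : ℝ) + 1)) ^ i⌋₊ : ℝ)) :
    Tendsto (fun N : ℕ => (∑ n ∈ Icc 1 N, a n) / (N : ℂ)) atTop (𝓝 0) := by
  rw [Metric.tendsto_atTop']
  intro η hη
  obtain ⟨s, hs⟩ := exists_nat_gt (8 * C / η + 1)
  obtain ⟨r, hr⟩ := exists_nat_gt (4 * B / η)
  have hCη : 0 < 8 * C / η := by positivity
  have hs1 : (1 : ℝ) < s := by linarith
  obtain ⟨θ, hθ⟩ : ∃ θ : ℝ, θ = 1 + 1 / ((s : ℝ) + 1) := ⟨_, rfl⟩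
  have hs0 : (0 : ℝ) < (s : ℝ) + 1 := by linarith
  have hθ1 : 1 < θ := by
    rw [hθ]
    have : 0 < 1 / ((s : ℝ) + 1) := by positivity
    linarith
  obtain ⟨θ', hθ'⟩ : ∃ θ' : ℝ, θ' = 1 + 2 / ((s : ℝ) + 1) := ⟨_, rfl⟩
  have hθ'1 : 1 < θ' := by
    rw [hθ']
    have : 0 < 2 / ((s : ℝ) + 1) := by positivity
    linarith
  have hθ'2 : θ' ≤ 2 := by
    rw [hθ']
    have : 2 / ((s : ℝ) + 1) ≤ 1 := by
      rw [div_le_one hs0]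
      linarith
    linarith
  have hrs := h r s
  rw [← hθ] at hrs
  have hfl := floor_atTop θ hθ1
  have hI' := hfl.eventually (hI θ' hθ'1 hθ'2)
  have hbig : ∀ᶠ i : ℕ in atTop, 2 * ((s : ℝ) + 1) ≤ (⌊θ ^ i⌋₊ : ℝ) :=
    (tendsto_natCast_atTop_atTop.comp hfl).eventually_ge_atTop _
  obtain ⟨i0, hi0⟩ := eventually_atTop.1 (hrs.and (hI'.and hbig))
  refine ⟨⌊θ ^ i0⌋₊, fun N hN => ?_⟩
  have hN1 : 1 ≤ N := (floor_pos θ hθ1 i0).trans hN.le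
  -- the index
  have hex : ∃ j, N < ⌊θ ^ j⌋₊ := (hfl.eventually_gt_atTop N).exists
  obtain ⟨j, hj⟩ : ∃ j, j = Nat.find hex := ⟨_, rfl⟩
  have hj1 : N < ⌊θ ^ j⌋₊ := by
    rw [hj]
    exact Nat.find_spec hex
  have hj0 : j ≠ 0 := by
    intro h0
    rw [h0, pow_zero, Nat.floor_one] at hj1
    omega
  obtain ⟨i, rfl⟩ : ∃ i, j = i + 1 := ⟨j - 1, by omega⟩
  have hiN : ⌊θ ^ i⌋₊ ≤ N := by
    by_contra hcon
    push Not at hcon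
    have := Nat.find_min' hex hcon
    omega
  have hii : i0 ≤ i := by
    by_contra hcon
    push Not at hcon
    have h1 : ⌊θ ^ (i + 1)⌋₊ ≤ ⌊θ ^ i0⌋₊ :=
      Nat.floor_le_floor (pow_le_pow_right₀ hθ1.le (by omega))
    omega
  obtain ⟨g1, g2, g3⟩ := hi0 i hii
  obtain ⟨n0, hn0⟩ : ∃ n0, n0 = ⌊θ ^ i⌋₊ := ⟨_, rfl⟩
  rw [← hn0] at g1 g2 g3 hiN
  have hn0r : (n0 : ℝ) ≤ N := by exact_mod_cast hiN
  have hn00 : (0 : ℝ) ≤ n0 := Nat.cast_nonneg _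
  have hup : (N : ℝ) ≤ θ' * n0 := by
    have h1 : (N : ℝ) ≤ θ ^ (i + 1) := by
      have h2 : ((⌊θ ^ (i + 1)⌋₊ : ℕ) : ℝ) ≤ θ ^ (i + 1) := Nat.floor_le (by positivity)
      have h3 : (N : ℝ) ≤ (⌊θ ^ (i + 1)⌋₊ : ℕ) := by exact_mod_cast hj1.le
      exact h3.trans h2
    have h2 : θ ^ i < (n0 : ℝ) + 1 := by
      rw [hn0]
      exact Nat.lt_floor_add_one _
    have h3 : θ ^ (i + 1) ≤ θ * (n0 + 1) := by
      rw [pow_succ, mul_comm]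
      exact mul_le_mul_of_nonneg_left h2.le (by linarith)
    have h4 : θ * (n0 + 1) ≤ θ' * n0 := by
      have e1 : θ' * n0 - θ * (n0 + 1) = n0 / ((s : ℝ) + 1) - θ := by
        rw [hθ, hθ']
        field_simp
        ring
      have e2 : 2 ≤ (n0 : ℝ) / ((s : ℝ) + 1) := by
        rw [le_div_iff₀ hs0]
        exact g3
      have e3 : θ ≤ 2 := by
        rw [hθ]
        have : 1 / ((s : ℝ) + 1) ≤ 1 := by
          rw [div_le_one hs0]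
          linarith
        linarith
      linarith
    linarith
  have g4 := g2 N hiN hup
  have hsplit : ∑ n ∈ Icc 1 N, a n = ∑ n ∈ Icc 1 n0, a n + ∑ n ∈ Ioc n0 N, a n := by
    have e1 : ∀ M : ℕ, Icc 1 M = Ioc 0 M := fun M => by
      ext x
      simp only [Finset.mem_Icc, Finset.mem_Ioc]
      omega
    rw [e1, e1, Finset.sum_Ioc_consecutive _ (Nat.zero_le _) hiN]
  have h5 : ‖∑ n ∈ Icc 1 N, a n‖ ≤ B * (1 / ((r : ℝ) + 1)) * n0 + C * (θ' - 1) * n0 := by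
    rw [hsplit]
    refine (norm_add_le _ _).trans (add_le_add g1 ?_)
    refine (norm_sum_le _ _).trans ?_
    exact (Finset.sum_le_sum fun n _ => hv n).trans g4
  have h6 : B * (1 / ((r : ℝ) + 1)) ≤ η / 4 := by
    have hr0 : (0 : ℝ) < (r : ℝ) + 1 := by positivity
    rw [mul_one_div, div_le_iff₀ hr0]
    rw [div_lt_iff₀ hη] at hr
    linarith
  have h7 : C * (θ' - 1) ≤ η / 4 := by
    have e1 : θ' - 1 = 2 / ((s : ℝ) + 1) := by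
      rw [hθ']
      ring
    rw [e1, mul_div_assoc', div_le_iff₀ hs0]
    have h8 : 8 * C / η ≤ (s : ℝ) + 1 := by linarith
    rw [div_le_iff₀ hη] at h8
    linarith
  have hNr : (0 : ℝ) < N := by exact_mod_cast hN1
  have h8 : ‖∑ n ∈ Icc 1 N, a n‖ ≤ η / 2 * N := by
    have e1 := mul_le_mul_of_nonneg_right h6 hn00
    have e2 := mul_le_mul_of_nonneg_right h7 hn00
    have e3 : η / 2 * (n0 : ℝ) ≤ η / 2 * N := mul_le_mul_of_nonneg_left hn0r (by positivity)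
    linarith
  rw [dist_zero_right, norm_div, Complex.norm_natCast, div_lt_iff₀ hNr]
  have h9 : η / 2 * (N : ℝ) < η * N := by
    have : 0 < η * N := by positivity
    linarith
  linarith

theorem t_ASL : S_GEN → S_COREL → S_INT → S_ASL := by
  classical
  intro hG hC hI Ω _ μ _ e he P hP hdd A T U w hTU hdis hU hw
  obtain ⟨m, hmm, hm1, hdd0, hm2, hgen⟩ := hG Ω μ e he P
  obtain ⟨C, hC0, hI'⟩ := hI A T (adm_left hTU)
  set F : ℕ → Ω → ℝ := fun p ω => if p.Prime ∧ p ∈ P then m p ω ^ 2 / p else 0 with hF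
  have hFmeas : ∀ p, Measurable (F p) := by
    intro p
    by_cases h : p.Prime ∧ p ∈ P
    · simp only [hF, if_pos h]
      exact ((hmm p).pow_const 2).div_const _
    · simp only [hF, if_neg h]
      exact measurable_const
  have hF0 : ∀ p ω, 0 ≤ F p ω := by
    intro p ω
    simp only [hF]
    split_ifs
    · positivity
    · exact le_rfl
  have hF1 : ∀ p ω, F p ω ≤ 1 := by
    intro p ω
    simp only [hF]
    split_ifs with h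
    · have hp : (1 : ℝ) ≤ p := by exact_mod_cast h.1.one_lt.le
      have h1 : m p ω ^ 2 ≤ 1 := by
        rw [← sq_abs]
        exact pow_le_one₀ (abs_nonneg _) (hm1 p ω)
      rw [div_le_one (by linarith)]
      linarith
    · norm_num
  have hFi : ∀ p, Integrable (F p) μ := fun p =>
    Integrable.of_bound (hFmeas p).aestronglyMeasurable 1 (Eventually.of_forall fun ω => by
      rw [Real.norm_of_nonneg (hF0 p ω)]; exact hF1 p ω)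
  have hFs : Summable fun p => ∫ ω, F p ω ∂μ := by
    have h1 : Summable (Set.indicator {p : ℕ | p.Prime ∧ p ∈ P}
        fun p => dd μ e (pr P p) p / (p : ℝ)) := by
      rw [← summable_subtype_iff_indicator]
      exact hdd
    refine Summable.of_nonneg_of_le (fun p => integral_nonneg (hF0 p)) (fun p => ?_) (h1.mul_left 2)
    by_cases h : p.Prime ∧ p ∈ P
    · rw [Set.indicator_of_mem (show p ∈ {p : ℕ | p.Prime ∧ p ∈ P} from h)]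
      have h2 : ∫ ω, F p ω ∂μ = (∫ ω, m p ω ^ 2 ∂μ) / p := by
        rw [← integral_div]
        refine integral_congr_ae (Eventually.of_forall fun ω => ?_)
        simp only [hF, if_pos h]
      rw [h2, ← mul_div_assoc]
      have hp : (0 : ℝ) < p := by exact_mod_cast h.1.pos
      exact div_le_div_of_nonneg_right (hm2 p h.1 h.2) hp.le
    · rw [Set.indicator_of_notMem (show p ∉ {p : ℕ | p.Prime ∧ p ∈ P} from h)]
      have h2 : ∫ ω, F p ω ∂μ = 0 := by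
        simp only [hF, if_neg h, integral_zero]
      rw [h2, mul_zero]
  have hae := ae_summable μ F hFmeas hF0 hFi hFs
  have hall : ∀ᵐ ω ∂μ, ∀ r s : ℕ, ∀ᶠ i : ℕ in atTop,
      ‖cl P e T U w ⌊(1 + 1 / ((s : ℝ) + 1)) ^ i⌋₊ ω‖ ≤
        3 * (1 / ((r : ℝ) + 1)) * (⌊(1 + 1 / ((s : ℝ) + 1)) ^ i⌋₊ : ℝ) := by
    rw [ae_all_iff]
    intro r
    rw [ae_all_iff]
    intro s
    have hs : 0 < 1 / ((s : ℝ) + 1) := by positivity
    exact geomL μ e he P m hgen hC hP F hae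
      (fun p hp hpP ω => by simp only [hF, if_pos (And.intro hp hpP)])
      A T U w hTU hdis hU hw (1 + 1 / ((s : ℝ) + 1)) (1 / ((r : ℝ) + 1)) (by linarith)
      (by positivity)
  filter_upwards [hall] with ω hω
  refine interpL (fun n => w n * (vT T n : ℂ) *
    ((∏ q ∈ U, cmf P (fun p => e p ω) (q.1 * n + q.2) : ℝ) : ℂ)) (vT T) ?_ 3 C (by norm_num) hC0
    hI' hω
  intro n
  have h1 := term_norm' e he P U w hw ω n
  have e1 : w n * (vT T n : ℂ) * ((∏ q ∈ U, cmf P (fun p => e p ω) (q.1 * n + q.2) : ℝ) : ℂ) =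
      (vT T n : ℂ) * (w n * ((∏ q ∈ U, cmf P (fun p => e p ω) (q.1 * n + q.2) : ℝ) : ℂ)) := by
    ring
  rw [e1, norm_mul, Complex.norm_real, Real.norm_eq_abs, abs_of_nonneg (vT_nonneg T n)]
  exact mul_le_of_le_one_right (vT_nonneg T n) h1

end Pool.Agent.Q285.EN
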