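import Mathlib

/-!
# The curve `y² = x³ + D x` and the classes of its points modulo squares
-/

set_option autoImplicit false

namespace Pool.Agent.Q285.EN

open WeierstrassCurve

section sq

variable {F : Type*} [Field F]

/-- `a` is a nonzero square -/
def IsS (a : F) : Prop := ∃ s : F, s ≠ 0 ∧ a = s ^ 2

theorem IsS.one : IsS (1 : F) := ⟨1, one_ne_zero, by norm_num⟩

theorem IsS.mul {a b : F} (ha : IsS a) (hb : IsS b) : IsS (a * b) := by
  obtain ⟨s, hs, rfl⟩ := ha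
  obtain ⟨t, ht, rfl⟩ := hb
  exact ⟨s * t, mul_ne_zero hs ht, by ring⟩

theorem IsS.inv {a : F} (ha : IsS a) : IsS a⁻¹ := by
  obtain ⟨s, hs, rfl⟩ := ha
  exact ⟨s⁻¹, inv_ne_zero hs, by rw [inv_pow]⟩

theorem IsS.ne {a : F} (ha : IsS a) : a ≠ 0 := by
  obtain ⟨s, hs, rfl⟩ := ha
  exact pow_ne_zero 2 hs

theorem IsS.div {a b : F} (ha : IsS a) (hb : IsS b) : IsS (a / b) := by
  rw [div_eq_mul_inv]
  exact ha.mul hb.inv

theorem IsS.of {s : F} (hs : s ≠ 0) : IsS (s ^ 2) := ⟨s, hs, rfl⟩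

theorem IsS.self {s : F} (hs : s ≠ 0) : IsS (s * s) := ⟨s, hs, by ring⟩

open Classical in
/-- the class belonging to the first coordinate `x` -/
noncomputable def cx (D x : F) : F := if x = 0 then D else x

theorem cx_zero (D : F) : cx D 0 = D := if_pos rfl

theorem cx_of {D x : F} (h : x ≠ 0) : cx D x = x := if_neg h

theorem cx_ne {D : F} (hD : D ≠ 0) (x : F) : cx D x ≠ 0 := by
  by_cases h : x = 0
  · rw [h, cx_zero]
    exact hD
  · rwa [cx_of h]

theorem L3a {D : F} (hD : D ≠ 0) {ℓ m x1 x2 x3 y1 : F} (h1 : y1 = ℓ * x1 + m)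
    (c1 : y1 ^ 2 = x1 ^ 3 + D * x1) (e2 : x1 * x2 + x1 * x3 + x2 * x3 = D - 2 * ℓ * m) (k1 : x1 = 0) :
    IsS (cx D x1 * cx D x2 * cx D x3) := by
  subst k1
  have hy : y1 = 0 := by
    have : y1 ^ 2 = 0 := by rw [c1]; ring
    exact pow_eq_zero_iff two_ne_zero |>.1 this
  have hm : m = 0 := by
    rw [hy] at h1
    linear_combination -h1
  have h4 : x2 * x3 = D := by
    rw [hm] at e2
    linear_combination e2
  have k2 : x2 ≠ 0 := by
    rintro rfl
    exact hD (by rw [← h4, zero_mul])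
  have k3 : x3 ≠ 0 := by
    rintro rfl
    exact hD (by rw [← h4, mul_zero])
  rw [cx_zero, cx_of k2, cx_of k3, mul_assoc, h4]
  exact IsS.self hD

/-- three points on a line -/
theorem L3 {D : F} (hD : D ≠ 0) {ℓ m x1 x2 x3 y1 y2 y3 : F} (h1 : y1 = ℓ * x1 + m) (h2 : y2 = ℓ * x2 + m)
    (h3 : y3 = ℓ * x3 + m) (c1 : y1 ^ 2 = x1 ^ 3 + D * x1) (c2 : y2 ^ 2 = x2 ^ 3 + D * x2)
    (c3 : y3 ^ 2 = x3 ^ 3 + D * x3)
    (e2 : x1 * x2 + x1 * x3 + x2 * x3 = D - 2 * ℓ * m) (e3 : x1 * x2 * x3 = m ^ 2) :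
    IsS (cx D x1 * cx D x2 * cx D x3) := by
  by_cases k1 : x1 = 0
  · exact L3a hD h1 c1 e2 k1
  by_cases k2 : x2 = 0
  · have h := L3a hD h2 c2 (x2 := x1) (x3 := x3) (by linear_combination e2) k2
    rwa [mul_comm (cx D x2)] at h
  by_cases k3 : x3 = 0
  · have h := L3a hD h3 c3 (x2 := x1) (x3 := x2) (by linear_combination e2) k3
    rwa [mul_assoc, mul_comm] at h
  rw [cx_of k1, cx_of k2, cx_of k3, e3]
  refine IsS.of ?_
  rintro rfl
  apply mul_ne_zero (mul_ne_zero k1 k2) k3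
  rw [e3]
  ring

end sq

variable {F : Type*} [Field F]

/-- the curve `y² = x³ + D x` -/
structure IsQ (V : WeierstrassCurve F) (D : F) : Prop where
  h1 : V.a₁ = 0
  h2 : V.a₂ = 0
  h3 : V.a₃ = 0
  h4 : V.a₄ = D
  h6 : V.a₆ = 0

variable {V : WeierstrassCurve F} {D : F}

theorem IsQ.eqn (hV : IsQ V D) (x y : F) : V.toAffine.Equation x y ↔ y ^ 2 = x ^ 3 + D * x := by
  rw [Affine.equation_iff]
  change y ^ 2 + V.a₁ * x * y + V.a₃ * y = x ^ 3 + V.a₂ * x ^ 2 + V.a₄ * x + V.a₆ ↔ _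
  rw [hV.h1, hV.h2, hV.h3, hV.h4, hV.h6]
  constructor
  · intro h; linear_combination h
  · intro h; linear_combination h

theorem IsQ.negY (hV : IsQ V D) (x y : F) : V.toAffine.negY x y = -y := by
  change -y - V.a₁ * x - V.a₃ = -y
  rw [hV.h1, hV.h3]
  ring

theorem IsQ.nons [CharZero F] (hV : IsQ V D) (hD : D ≠ 0) {x y : F} (he : y ^ 2 = x ^ 3 + D * x) :
    V.toAffine.Nonsingular x y := by
  rw [Affine.nonsingular_iff]
  refine ⟨(hV.eqn x y).2 he, ?_⟩
  by_cases hy : y = 0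
  · left
    change V.a₁ * y ≠ 3 * x ^ 2 + 2 * V.a₂ * x + V.a₄
    rw [hV.h1, hV.h2, hV.h4]
    intro h3
    subst hy
    have h4 : D ^ 3 = 0 := by
      have h5 : (4 : F) * D ^ 3 = 0 := by
        linear_combination (-(6 * D) * x ^ 2 - 4 * D ^ 2) * h3 + 18 * D * x * he
      exact (mul_eq_zero.1 h5).resolve_left (by norm_num)
    exact hD (pow_eq_zero_iff three_ne_zero |>.1 h4)
  · right
    change y ≠ -y - V.a₁ * x - V.a₃
    rw [hV.h1, hV.h3]
    intro h5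
    apply hy
    have h6 : (2 : F) * y = 0 := by linear_combination h5
    exact (mul_eq_zero.1 h6).resolve_left two_ne_zero

/-- the addition law -/
theorem IsQ.add_ex [DecidableEq F] (hV : IsQ V D) {x1 y1 x2 y2 : F} (h1 : V.toAffine.Nonsingular x1 y1)
    (h2 : V.toAffine.Nonsingular x2 y2) (hxy : ¬ (x1 = x2 ∧ y1 = -y2)) :
    ∃ (ℓ X Y : F) (h : V.toAffine.Nonsingular X Y),
      (Affine.Point.some x1 y1 h1 : V.toAffine.Point) + .some x2 y2 h2 = .some X Y h ∧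
      X = ℓ ^ 2 - x1 - x2 ∧ Y = -(ℓ * (X - x1) + y1) ∧
      ((x1 ≠ x2 ∧ ℓ * (x1 - x2) = y1 - y2) ∨
        (x1 = x2 ∧ y1 = y2 ∧ 2 * y1 ≠ 0 ∧ ℓ * (2 * y1) = 3 * x1 ^ 2 + D)) := by
  have hxy' : ¬ (x1 = x2 ∧ y1 = V.toAffine.negY x2 y2) := by rwa [hV.negY]
  refine ⟨V.toAffine.slope x1 x2 y1 y2, _, _, _, Affine.Point.add_some hxy', ?_, ?_, ?_⟩
  · change _ ^ 2 + V.a₁ * _ - V.a₂ - x1 - x2 = _
    rw [hV.h1, hV.h2]
    ring
  · change -(_ * (_ ^ 2 + V.a₁ * _ - V.a₂ - x1 - x2 - x1) + y1) - V.a₁ * _ - V.a₃ =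
      -(_ * ((_ ^ 2 + V.a₁ * _ - V.a₂ - x1 - x2) - x1) + y1)
    rw [hV.h1, hV.h3]
    ring
  · by_cases hx : x1 = x2
    · right
      subst hx
      have hy : y1 ≠ -y2 := fun h => hxy ⟨rfl, h⟩
      have e1 := (hV.eqn _ _).1 h1.1
      have e2 := (hV.eqn _ _).1 h2.1
      have e3 : (y1 - y2) * (y1 + y2) = 0 := by linear_combination e1 - e2
      have e4 : y1 + y2 ≠ 0 := fun h => hy (by linear_combination h)
      have e5 : y1 = y2 := by
        have := (mul_eq_zero.1 e3).resolve_right e4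
        linear_combination this
      subst e5
      have e6 : 2 * y1 ≠ 0 := by
        intro h
        apply e4
        linear_combination h
      refine ⟨rfl, rfl, e6, ?_⟩
      have hY : y1 ≠ V.toAffine.negY x1 y1 := by rwa [hV.negY]
      rw [Affine.slope_of_Y_ne rfl hY, hV.negY]
      change (3 * x1 ^ 2 + 2 * V.a₂ * x1 + V.a₄ - V.a₁ * y1) / (y1 - (-y1)) * (2 * y1) = _
      rw [hV.h1, hV.h2, hV.h4]
      have e7 : y1 - (-y1) ≠ 0 := by
        intro h
        apply e4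
        linear_combination h
      rw [div_mul_eq_mul_div, div_eq_iff e7]
      ring
    · left
      refine ⟨hx, ?_⟩
      rw [Affine.slope_of_X_ne hx, div_mul_cancel₀ _ (sub_ne_zero.2 hx)]

/-- opposite points -/
theorem IsQ.add_opp [DecidableEq F] (hV : IsQ V D) {x1 y1 x2 y2 : F} (h1 : V.toAffine.Nonsingular x1 y1)
    (h2 : V.toAffine.Nonsingular x2 y2) (hxy : x1 = x2 ∧ y1 = -y2) :
    (Affine.Point.some x1 y1 h1 : V.toAffine.Point) + .some x2 y2 h2 = 0 :=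
  Affine.Point.add_of_Y_eq hxy.1 (by rw [hV.negY]; exact hxy.2)

/-- the class of a point -/
noncomputable def cl (D : F) : V.toAffine.Point → F
  | 0 => 1
  | .some x _ _ => cx D x

theorem cl_zero : cl D (0 : V.toAffine.Point) = 1 := rfl

theorem cl_some {x y : F} (h : V.toAffine.Nonsingular x y) : cl D (.some x y h : V.toAffine.Point) = cx D x := rfl

theorem cl_ne (hD : D ≠ 0) (P : V.toAffine.Point) : cl D P ≠ 0 := by
  rcases P with _ | ⟨x, y, h⟩
  · exact one_ne_zero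
  · exact cx_ne hD x

theorem cl_add [DecidableEq F] (hV : IsQ V D) (hD : D ≠ 0) (P Q : V.toAffine.Point) :
    IsS (cl D P * cl D Q * cl D (P + Q)) := by
  rcases P with _ | ⟨x1, y1, n1⟩
  · have h1 : (Affine.Point.zero : V.toAffine.Point) + Q = Q := zero_add Q
    have h2 : cl D (Affine.Point.zero : V.toAffine.Point) = 1 := rfl
    rw [h1, h2, one_mul]
    exact IsS.self (cl_ne hD Q)
  rcases Q with _ | ⟨x2, y2, n2⟩
  · have h1 : ∀ P : V.toAffine.Point, P + Affine.Point.zero = P := fun P => add_zero P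
    have h2 : cl D (Affine.Point.zero : V.toAffine.Point) = 1 := rfl
    rw [h1, h2, mul_one]
    exact IsS.self (cl_ne hD _)
  have c1 := (hV.eqn _ _).1 n1.1
  have c2 := (hV.eqn _ _).1 n2.1
  by_cases hxy : x1 = x2 ∧ y1 = -y2
  · rw [hV.add_opp n1 n2 hxy, cl_zero, mul_one, cl_some, cl_some, hxy.1]
    exact IsS.self (cx_ne hD _)
  · obtain ⟨ℓ, X, Y, n3, e, eX, eY, hs⟩ := hV.add_ex n1 n2 hxy
    rw [e, cl_some, cl_some, cl_some]
    have c3 := (hV.eqn _ _).1 n3.1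
    set m := y1 - ℓ * x1 with hm
    have k1 : y1 = ℓ * x1 + m := by rw [hm]; ring
    have k3 : -Y = ℓ * X + m := by rw [hm, eY]; ring
    have e1 : x1 + x2 + X = ℓ ^ 2 := by rw [eX]; ring
    have key : y2 = ℓ * x2 + m ∧ x1 * x2 + x1 * X + x2 * X = D - 2 * ℓ * m := by
      rcases hs with ⟨g1, g2⟩ | ⟨g1, g2, g3, g4⟩
      · have k2 : y2 = ℓ * x2 + m := by rw [hm]; linear_combination g2
        refine ⟨k2, ?_⟩
        apply mul_left_cancel₀ (sub_ne_zero.2 g1)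
        rw [k1] at c1
        rw [k2] at c2
        rw [eX]
        linear_combination c1 - c2
      · refine ⟨by rw [← g2, ← g1]; exact k1, ?_⟩
        rw [eX, ← g1]
        have h5 : ℓ * (2 * (ℓ * x1 + m)) = 3 * x1 ^ 2 + D := by rw [← k1]; exact g4
        linear_combination h5
    obtain ⟨k2, e2⟩ := key
    have e3 : x1 * x2 * X = m ^ 2 := by
      rw [k1] at c1
      linear_combination x1 * e2 - x1 ^ 2 * e1 - c1
    have c3' : (-Y) ^ 2 = X ^ 3 + D * X := by linear_combination c3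
    exact L3 hD k1 k2 k3 c1 c2 c3' e2 e3

end Pool.Agent.Q285.EN
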