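import Pool.Agent.Q283.EN.Stm2
import Pool.Agent.Q285.EN.CurQ

/-!
# Project EN (helper283), job QCL: the classes of the points of `y² = x³ + D x` modulo squares
-/

set_option autoImplicit false

namespace Pool.Agent.Q285.EN

open WeierstrassCurve Pool.Agent.Q283.EN
open Pool.Agent.TH841.SH.D (Pt act)

section

variable {F : Type} [Field F]

theorem isQ_base (D : F) (L : Type) [Field L] [Algebra F L] : IsQ ((EQ D).baseChange L) (algebraMap F L D) where
  h1 := map_zero (algebraMap F L)
  h2 := map_zero (algebraMap F L)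
  h3 := map_zero (algebraMap F L)
  h4 := rfl
  h6 := map_zero (algebraMap F L)

/-- the class of a point -/
noncomputable def clP (D : F) {L : Type} [Field L] [Algebra F L] (P : Pt (EQ D) L) : L :=
  @cl L _ ((EQ D).baseChange L) (algebraMap F L D) P

theorem clP_ne {D : F} (hD : D ≠ 0) {L : Type} [Field L] [Algebra F L] (P : Pt (EQ D) L) : clP D P ≠ 0 :=
  cl_ne ((map_ne_zero _).2 hD) P

variable {D : F}

theorem cq_iff (hD : D ≠ 0) {L : Type} [Field L] [Algebra F L] (P : Pt (EQ D) L) (a : L) :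
    CQ D L P a ↔ IsS (a * clP D P) := by
  have hD' : algebraMap F L D ≠ 0 := (map_ne_zero _).2 hD
  constructor
  · rintro ⟨ha, ⟨rfl, s, hs⟩ | ⟨⟨h, rfl⟩, s, hs⟩ | ⟨x, y, h, s, rfl, hx, hs, rfl⟩⟩
    · have h1 : clP D (0 : Pt (EQ D) L) = 1 := rfl
      rw [h1, mul_one]
      refine ⟨s, ?_, hs⟩
      rintro rfl
      apply ha
      rw [hs]
      norm_num
    · have h1 : clP D (Affine.Point.some 0 0 h : Pt (EQ D) L) = algebraMap F L D := cx_zero _
      rw [h1, hs]
      refine IsS.of ?_
      rintro rfl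
      apply mul_ne_zero ha hD'
      rw [hs]
      norm_num
    · have h1 : clP D (Affine.Point.some x y h : Pt (EQ D) L) = x := cx_of hx
      rw [h1]
      exact ⟨x * s, mul_ne_zero hx hs, by ring⟩
  · intro hC
    have ha : a ≠ 0 := by
      rintro rfl
      rw [zero_mul] at hC
      exact hC.ne rfl
    refine ⟨ha, ?_⟩
    rcases P with _ | ⟨x, y, h⟩
    · left
      have h1 : clP D (Affine.Point.zero : Pt (EQ D) L) = 1 := rfl
      rw [h1, mul_one] at hC
      obtain ⟨s, _, hs⟩ := hC
      exact ⟨rfl, s, hs⟩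
    · right
      by_cases hx : x = 0
      · left
        subst hx
        have he := ((isQ_base D L).eqn 0 y).1 h.1
        have hy : y = 0 := by
          have : y ^ 2 = 0 := by rw [he]; ring
          exact pow_eq_zero_iff two_ne_zero |>.1 this
        subst hy
        have h1 : clP D (Affine.Point.some 0 0 h : Pt (EQ D) L) = algebraMap F L D := cx_zero _
        rw [h1] at hC
        obtain ⟨s, _, hs⟩ := hC
        exact ⟨⟨h, rfl⟩, s, hs⟩
      · right
        have h1 : clP D (Affine.Point.some x y h : Pt (EQ D) L) = x := cx_of hx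
        rw [h1] at hC
        obtain ⟨s, hs, hs3⟩ := hC
        refine ⟨x, y, h, s / x, rfl, hx, div_ne_zero hs hx, ?_⟩
        have h2 : a * x = s ^ 2 := hs3
        field_simp
        exact h2

theorem clP_add (hD : D ≠ 0) (L : Type) [Field L] [Algebra F L] (P Q : Pt (EQ D) L) :
    IsS (clP D P * clP D Q * clP D (P + Q)) :=
  @cl_add L _ ((EQ D).baseChange L) (algebraMap F L D) (Classical.decEq L) (isQ_base D L) ((map_ne_zero _).2 hD) P Q

end

/-- **Job QCL.** -/
theorem qcl : S_QCL := by
  intro F _ _ D hD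
  refine ⟨fun L _ _ P => ⟨⟨clP D P, ?_⟩, ?_, ?_, ?_⟩, ?_⟩
  · rw [cq_iff hD]
    exact IsS.self (clP_ne hD P)
  · intro a s ha hs
    rw [cq_iff hD] at ha ⊢
    have e : a * s ^ 2 * clP D P = a * clP D P * s ^ 2 := by ring
    rw [e]
    exact ha.mul (IsS.of hs)
  · intro a b ha hb
    have ha0 := ha.1
    rw [cq_iff hD] at ha hb
    obtain ⟨s, hs, h⟩ := hb.div ha
    refine ⟨s, hs, ?_⟩
    rw [← h, mul_div_mul_right _ _ (clP_ne hD P), mul_div_cancel₀ _ ha0]
  · intro Q a b ha hb
    rw [cq_iff hD] at ha hb ⊢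
    have h := ((ha.mul hb).mul (clP_add hD L P Q)).div ((IsS.self (clP_ne hD P)).mul (IsS.self (clP_ne hD Q)))
    have e : a * clP D P * (b * clP D Q) * (clP D P * clP D Q * clP D (P + Q)) /
        (clP D P * clP D P * (clP D Q * clP D Q)) = a * b * clP D (P + Q) := by
      have h1 := clP_ne hD P
      have h2 := clP_ne hD Q
      field_simp
    rwa [e] at h
  · intro L L' _ _ _ _ φ P a ha
    rw [cq_iff hD] at ha ⊢
    have e : clP D (act (EQ D) φ P) = φ (clP D P) := by
      rcases P with _ | ⟨x, y, h⟩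
      · exact (map_one φ).symm
      · change cx (algebraMap F L' D) (φ x) = φ (cx (algebraMap F L D) x)
        by_cases hx : x = 0
        · rw [hx, map_zero, cx_zero, cx_zero, AlgHom.commutes]
        · rw [cx_of hx, cx_of ((map_ne_zero _).2 hx)]
    rw [e]
    obtain ⟨s, hs, h⟩ := ha
    refine ⟨φ s, (map_ne_zero _).2 hs, ?_⟩
    rw [← map_mul, h, map_pow]

end Pool.Agent.Q285.EN
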